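import Pool.Agent.H11.EQ.D1a

/-!
# MP_75a732_an, row D1: the pull-back of a closed form is closed
-/

set_option autoImplicit false

namespace Pool.Agent.H11.EQ

open scoped BigOperators ComplexConjugate ContDiff ComplexOrder
open MeasureTheory Pool.Agent.H92.EQ

variable {ι κ : Type} [Fintype ι] [DecidableEq ι] [Fintype κ] [DecidableEq κ]

/-- second derivatives of the polynomial map -/
noncomputable def hh (G : ι → MvPolynomial κ ℂ) (z : κ → ℂ) (a b : κ) : ι → ℂ :=
  fun i => MvPolynomial.eval z (MvPolynomial.pderiv a (MvPolynomial.pderiv b (G i)))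

/-- first derivatives of the polynomial map -/
noncomputable def vv (G : ι → MvPolynomial κ ℂ) (z : κ → ℂ) (b : κ) : ι → ℂ :=
  fun i => jac G z i b

theorem pd_comm (P : MvPolynomial κ ℂ) (a b : κ) : MvPolynomial.pderiv a
    (MvPolynomial.pderiv b P) = MvPolynomial.pderiv b (MvPolynomial.pderiv a P) := by
  have h : ⁅(MvPolynomial.pderiv a : Derivation ℂ (MvPolynomial κ ℂ) (MvPolynomial κ ℂ)),
      (MvPolynomial.pderiv b : Derivation ℂ (MvPolynomial κ ℂ) (MvPolynomial κ ℂ))⁆ = 0 := by
    refine MvPolynomial.derivation_ext fun i => ?_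
    rw [Derivation.commutator_apply]
    by_cases h1 : i = a
    · by_cases h2 : i = b
      · subst h1
        subst h2
        simp
      · subst h1
        rw [MvPolynomial.pderiv_X_self, MvPolynomial.pderiv_X_of_ne h2]
        simp
    · rw [MvPolynomial.pderiv_X_of_ne h1]
      by_cases h2 : i = b
      · subst h2
        rw [MvPolynomial.pderiv_X_self]
        simp
      · rw [MvPolynomial.pderiv_X_of_ne h2]
        simp
  have h2 := congrArg (fun D : Derivation ℂ (MvPolynomial κ ℂ) (MvPolynomial κ ℂ) => D P) h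
  simp only [Derivation.commutator_apply, Derivation.zero_apply] at h2
  exact sub_eq_zero.mp h2

theorem hh_comm (G : ι → MvPolynomial κ ℂ) (z : κ → ℂ) (a b : κ) : hh G z a b = hh G z b a := by
  funext i
  unfold hh
  rw [pd_comm]

theorem contDiff_ev (h2 : T_W2) (G : ι → MvPolynomial κ ℂ) : ContDiff ℝ ∞ (ev G) := by
  rw [contDiff_pi]
  intro i
  by_cases hk : Nonempty κ
  · obtain ⟨a⟩ := hk
    exact (h2 κ a (G i) 0).2.2
  · rw [not_nonempty_iff] at hk
    have : ev G = fun z => ev G 0 := by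
      funext z
      rw [Subsingleton.elim z 0]
    have h3 : (fun z => ev G z i) = fun _ => ev G 0 i := by
      funext z
      rw [this]
    rw [h3]
    exact contDiff_const

theorem contDiff_jac (h2 : T_W2) (G : ι → MvPolynomial κ ℂ) (i : ι) (a : κ) :
    ContDiff ℝ ∞ (fun z => jac G z i a) :=
  (h2 κ a (MvPolynomial.pderiv a (G i)) 0).2.2

theorem contDiff_cjac (h2 : T_W2) (G : ι → MvPolynomial κ ℂ) (i : ι) (a : κ) :
    ContDiff ℝ ∞ (fun z => conj (jac G z i a)) :=
  Complex.conjCLE.contDiff.comp (contDiff_jac h2 G i a)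

theorem smooth_pull (h2 : T_W2) {p : ℕ} (G : ι → MvPolynomial κ ℂ) {U : Set (ι → ℂ)}
    {S : Form ι p} (hS : ∀ I J, ContDiffOn ℝ ∞ (fun z => S z I J) U) (I J : Fin p → κ) :
    ContDiffOn ℝ ∞ (fun z => pull G S z I J) (ev G ⁻¹' U) := by
  unfold pull
  refine ContDiffOn.sum fun I' _ => ContDiffOn.sum fun J' _ => ?_
  refine ContDiffOn.mul (ContDiffOn.mul ?_ ?_) ?_
  · exact (hS I' J').comp (contDiff_ev h2 G).contDiffOn (Set.mapsTo_preimage _ _)
  · exact (contDiff_prod fun l _ => contDiff_jac h2 G (I' l) (I l)).contDiffOn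
  · exact (contDiff_prod fun l _ => contDiff_cjac h2 G (J' l) (J l)).contDiffOn

theorem wd_pull (h1 : T_W1) (h2 : T_W2) (h3 : T_W3) {p : ℕ} (G : ι → MvPolynomial κ ℂ)
    {U : Set (ι → ℂ)} {S : Form ι p} (hU : IsOpen U)
    (hS : ∀ I J, ContDiffOn ℝ ∞ (fun z => S z I J) U) (z : κ → ℂ) (hz : ev G z ∈ U)
    (a : κ) (K J : Fin p → κ) :
    wd a (fun w => pull G S w K J) z =
      ∑ I' : Fin p → ι, ∑ J' : Fin p → ι,
        ((∑ i, jac G z i a * wd i (fun y => S y I' J') (ev G z)) *
          (∏ l, jac G z (I' l) (K l)) * (∏ l, conj (jac G z (J' l) (J l))) +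
        S (ev G z) I' J' * (∑ l, (∏ l' ∈ Finset.univ.erase l, jac G z (I' l') (K l')) *
          hh G z a (K l) (I' l)) * (∏ l, conj (jac G z (J' l) (J l)))) := by
  have dS : ∀ I' J', DifferentiableAt ℝ (fun w => S (ev G w) I' J') z := fun I' J' => by
    have e1 : DifferentiableAt ℝ (fun y => S y I' J') (ev G z) :=
      ((hS I' J').contDiffAt (hU.mem_nhds hz)).differentiableAt (by simp)
    have e2 : DifferentiableAt ℝ (ev G) z :=
      ((contDiff_ev h2 G).contDiffAt).differentiableAt (by simp)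
    exact e1.comp z e2
  have dJ : ∀ i b, DifferentiableAt ℝ (fun w => jac G w i b) z := fun i b =>
    ((contDiff_jac h2 G i b).contDiffAt).differentiableAt (by simp)
  have dC : ∀ i b, DifferentiableAt ℝ (fun w => conj (jac G w i b)) z := fun i b =>
    ((contDiff_cjac h2 G i b).contDiffAt).differentiableAt (by simp)
  have dP : ∀ I' : Fin p → ι, DifferentiableAt ℝ (fun w => ∏ l, jac G w (I' l) (K l)) z :=
    fun I' => ((contDiff_prod fun l _ => contDiff_jac h2 G (I' l) (K l)).contDiffAt
      ).differentiableAt (by simp)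
  have dQ : ∀ J' : Fin p → ι,
      DifferentiableAt ℝ (fun w => ∏ l, conj (jac G w (J' l) (J l))) z :=
    fun J' => ((contDiff_prod fun l _ => contDiff_cjac h2 G (J' l) (J l)).contDiffAt
      ).differentiableAt (by simp)
  have e1 : ∀ i b, wd a (fun w => jac G w i b) z = hh G z a b i := fun i b =>
    (h2 κ a (MvPolynomial.pderiv b (G i)) z).1
  have e2 : ∀ i b, wd a (fun w => conj (jac G w i b)) z = 0 := fun i b => by
    rw [(h1 κ a (fun w => jac G w i b) (fun w => jac G w i b) z (dJ i b) (dJ i b)).2.2.2.2.1]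
    have e3 : wdb a (fun w => jac G w i b) z = 0 :=
      (h2 κ a (MvPolynomial.pderiv b (G i)) z).2.1
    rw [e3, map_zero]
  have e4 : ∀ J' : Fin p → ι, wd a (fun w => ∏ l, conj (jac G w (J' l) (J l))) z = 0 :=
    fun J' => by
    rw [wd_prod Finset.univ a (fun l w => conj (jac G w (J' l) (J l))) z
      (fun l _ => dC (J' l) (J l))]
    exact Finset.sum_eq_zero fun l _ => by rw [e2, mul_zero]
  have e5 : ∀ I' : Fin p → ι, wd a (fun w => ∏ l, jac G w (I' l) (K l)) z =
      ∑ l, (∏ l' ∈ Finset.univ.erase l, jac G z (I' l') (K l')) * hh G z a (K l) (I' l) :=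
    fun I' => by
    rw [wd_prod Finset.univ a (fun l w => jac G w (I' l) (K l)) z
      (fun l _ => dJ (I' l) (K l))]
    exact Finset.sum_congr rfl fun l _ => by rw [e1]
  unfold pull
  rw [wd_sum Finset.univ a (fun (I' : Fin p → ι) w => ∑ J' : Fin p → ι,
    S (ev G w) I' J' * (∏ l, jac G w (I' l) (K l)) * ∏ l, conj (jac G w (J' l) (J l))) z
    (fun I' _ => DifferentiableAt.fun_sum fun J' _ => ((dS I' J').mul (dP I')).mul (dQ J'))]
  refine Finset.sum_congr rfl fun I' _ => ?_
  rw [wd_sum Finset.univ a (fun (J' : Fin p → ι) w =>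
    S (ev G w) I' J' * (∏ l, jac G w (I' l) (K l)) * ∏ l, conj (jac G w (J' l) (J l))) z
    (fun J' _ => ((dS I' J').mul (dP I')).mul (dQ J'))]
  refine Finset.sum_congr rfl fun J' _ => ?_
  have e6 := (h1 κ a (fun w => S (ev G w) I' J' * ∏ l, jac G w (I' l) (K l))
    (fun w => ∏ l, conj (jac G w (J' l) (J l))) z ((dS I' J').mul (dP I')) (dQ J')).2.2.1
  have e7 := (h1 κ a (fun w => S (ev G w) I' J') (fun w => ∏ l, jac G w (I' l) (K l)) z
    (dS I' J') (dP I')).2.2.1
  have e8 := (h3 ι κ G (fun y => S y I' J') z a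
    (((hS I' J').contDiffAt (hU.mem_nhds hz)).differentiableAt (by simp))).1
  rw [e6, e7, e8, e4, e5]
  ring

/-- the left closedness -/
theorem pull_closedL (h1 : T_W1) (h2 : T_W2) (h3 : T_W3) {p : ℕ} (G : ι → MvPolynomial κ ℂ)
    {U : Set (ι → ℂ)} {S : Form ι p} (hU : IsOpen U) (hS : ClosedForm U S) (z : κ → ℂ)
    (hz : ev G z ∈ U) (I : Fin (p + 1) → κ) (J : Fin p → κ) :
    ∑ j : Fin (p + 1), (-1 : ℂ) ^ (j : ℕ) *
      wd (I j) (fun w => pull G S w (I ∘ j.succAbove) J) z = 0 := by
  have e0 := fun (j : Fin (p + 1)) =>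
    wd_pull h1 h2 h3 G hU hS.smooth z hz (I j) (I ∘ j.succAbove) J
  simp only [e0, Finset.sum_add_distrib, mul_add]
  -- the derivatives of the coefficients
  have p1 : ∑ j : Fin (p + 1), (-1 : ℂ) ^ (j : ℕ) *
      ∑ I' : Fin p → ι, ∑ J' : Fin p → ι,
        (∑ i, jac G z i (I j) * wd i (fun y => S y I' J') (ev G z)) *
          (∏ l, jac G z (I' l) ((I ∘ j.succAbove) l)) *
            (∏ l, conj (jac G z (J' l) (J l))) = 0 := by
    have q1 : ∀ j : Fin (p + 1), ∑ I' : Fin p → ι, ∑ J' : Fin p → ι,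
        (∑ i, jac G z i (I j) * wd i (fun y => S y I' J') (ev G z)) *
          (∏ l, jac G z (I' l) ((I ∘ j.succAbove) l)) *
            (∏ l, conj (jac G z (J' l) (J l))) =
        ∑ I'' : Fin (p + 1) → ι, ∑ J' : Fin p → ι,
          (∏ l, jac G z (I'' l) (I l)) * (∏ l, conj (jac G z (J' l) (J l))) *
            wd (I'' j) (fun y => S y (I'' ∘ j.succAbove) J') (ev G z) := by
      intro j
      symm
      rw [← Equiv.sum_comp (Fin.insertNthEquiv (fun _ => ι) j), Fintype.sum_prod_type,
        Finset.sum_comm]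
      refine Finset.sum_congr rfl fun I' _ => ?_
      rw [Finset.sum_comm]
      refine Finset.sum_congr rfl fun J' _ => ?_
      rw [Finset.sum_mul, Finset.sum_mul]
      refine Finset.sum_congr rfl fun i _ => ?_
      have r1 : (Fin.insertNthEquiv (fun _ => ι) j) (i, I') j = i := by simp
      have r2 : (Fin.insertNthEquiv (fun _ => ι) j) (i, I') ∘ j.succAbove = I' := by
        funext l
        simp
      have r3 : ∏ l, jac G z ((Fin.insertNthEquiv (fun _ => ι) j) (i, I') l) (I l) =
          jac G z i (I j) * ∏ l, jac G z (I' l) ((I ∘ j.succAbove) l) := by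
        rw [Fin.prod_univ_succAbove _ j, r1]
        congr 1
        refine Finset.prod_congr rfl fun l _ => ?_
        have r4 : (Fin.insertNthEquiv (fun _ => ι) j) (i, I') (j.succAbove l) = I' l :=
          congrFun r2 l
        rw [r4]
        rfl
      rw [r1, r2, r3]
      ring
    simp only [q1]
    simp only [Finset.mul_sum]
    rw [Finset.sum_comm]
    refine Finset.sum_eq_zero fun I'' _ => ?_
    rw [Finset.sum_comm]
    refine Finset.sum_eq_zero fun J' _ => ?_
    have q2 := hS.closedL (ev G z) hz I'' J'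
    have q3 : ∑ j : Fin (p + 1), (-1 : ℂ) ^ (j : ℕ) * ((∏ l, jac G z (I'' l) (I l)) *
        (∏ l, conj (jac G z (J' l) (J l))) *
          wd (I'' j) (fun y => S y (I'' ∘ j.succAbove) J') (ev G z)) =
        ((∏ l, jac G z (I'' l) (I l)) * (∏ l, conj (jac G z (J' l) (J l)))) *
          ∑ j : Fin (p + 1), (-1 : ℂ) ^ (j : ℕ) *
            wd (I'' j) (fun y => S y (I'' ∘ j.succAbove) J') (ev G z) := by
      rw [Finset.mul_sum]
      exact Finset.sum_congr rfl fun j _ => by ring
    rw [q3, q2, mul_zero]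
  -- the second derivatives of the map
  have p2 : ∑ j : Fin (p + 1), (-1 : ℂ) ^ (j : ℕ) *
      ∑ I' : Fin p → ι, ∑ J' : Fin p → ι,
        S (ev G z) I' J' * (∑ l, (∏ l' ∈ Finset.univ.erase l,
          jac G z (I' l') ((I ∘ j.succAbove) l')) * hh G z (I j) ((I ∘ j.succAbove) l) (I' l)) *
            (∏ l, conj (jac G z (J' l) (J l))) = 0 := by
    have q1 : ∀ j : Fin (p + 1), ∑ I' : Fin p → ι, ∑ J' : Fin p → ι,
        S (ev G z) I' J' * (∑ l, (∏ l' ∈ Finset.univ.erase l,
          jac G z (I' l') ((I ∘ j.succAbove) l')) * hh G z (I j) ((I ∘ j.succAbove) l) (I' l)) *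
            (∏ l, conj (jac G z (J' l) (J l))) =
        ∑ J' : Fin p → ι, (∏ l, conj (jac G z (J' l) (J l))) * ∑ l : Fin p,
          ∑ I' : Fin p → ι, S (ev G z) I' J' * ∏ l', (Function.update
            ((fun m => vv G z (I m)) ∘ j.succAbove) l (hh G z (I j) (I (j.succAbove l)))) l'
              (I' l') := by
      intro j
      rw [Finset.sum_comm]
      refine Finset.sum_congr rfl fun J' _ => ?_
      rw [Finset.mul_sum]
      have q2 : ∀ I' : Fin p → ι, S (ev G z) I' J' * (∑ l, (∏ l' ∈ Finset.univ.erase l,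
          jac G z (I' l') ((I ∘ j.succAbove) l')) * hh G z (I j) ((I ∘ j.succAbove) l) (I' l)) *
            (∏ l, conj (jac G z (J' l) (J l))) =
          ∑ l, (∏ l, conj (jac G z (J' l) (J l))) * (S (ev G z) I' J' * ∏ l', (Function.update
            ((fun m => vv G z (I m)) ∘ j.succAbove) l (hh G z (I j) (I (j.succAbove l)))) l'
              (I' l')) := by
        intro I'
        rw [Finset.mul_sum, Finset.sum_mul]
        refine Finset.sum_congr rfl fun l _ => ?_
        have q3 : ∏ l', (Function.update ((fun m => vv G z (I m)) ∘ j.succAbove) l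
            (hh G z (I j) (I (j.succAbove l)))) l' (I' l') =
            (∏ l' ∈ Finset.univ.erase l, jac G z (I' l') ((I ∘ j.succAbove) l')) *
              hh G z (I j) ((I ∘ j.succAbove) l) (I' l) := by
          rw [← Finset.prod_erase_mul _ _ (Finset.mem_univ l), Function.update_self]
          congr 1
          refine Finset.prod_congr rfl fun l' hl' => ?_
          rw [Function.update_of_ne (Finset.ne_of_mem_erase hl')]
          rfl
        rw [q3]
        ring
      rw [Finset.sum_congr rfl fun I' _ => q2 I', Finset.sum_comm]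
      refine Finset.sum_congr rfl fun l _ => ?_
      rw [Finset.mul_sum]
    simp only [q1]
    have q4 : ∀ j : Fin (p + 1), (-1 : ℂ) ^ (j : ℕ) * ∑ J' : Fin p → ι,
        (∏ l, conj (jac G z (J' l) (J l))) * ∑ l : Fin p,
          ∑ I' : Fin p → ι, S (ev G z) I' J' * ∏ l', (Function.update
            ((fun m => vv G z (I m)) ∘ j.succAbove) l (hh G z (I j) (I (j.succAbove l)))) l'
              (I' l') =
        ∑ J' : Fin p → ι, (∏ l, conj (jac G z (J' l) (J l))) * ((-1 : ℂ) ^ (j : ℕ) *
          ∑ l : Fin p, ∑ I' : Fin p → ι, S (ev G z) I' J' * ∏ l', (Function.update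
            ((fun m => vv G z (I m)) ∘ j.succAbove) l (hh G z (I j) (I (j.succAbove l)))) l'
              (I' l')) := by
      intro j
      rw [Finset.mul_sum]
      exact Finset.sum_congr rfl fun J' _ => by ring
    rw [Finset.sum_congr rfl fun j _ => q4 j, Finset.sum_comm]
    refine Finset.sum_eq_zero fun J' _ => ?_
    rw [← Finset.mul_sum]
    have q5 := sum_alt_symm (fun M : Fin p → (ι → ℂ) => ∑ I' : Fin p → ι,
      S (ev G z) I' J' * ∏ l', M l' (I' l')) ?_ (fun m => vv G z (I m))
      (fun i j => hh G z (I i) (I j)) (fun i j => hh_comm G z (I i) (I j))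
    · rw [q5, mul_zero]
    · intro M τ
      rw [Finset.mul_sum, ← Equiv.sum_comp (Equiv.arrowCongr τ.symm (Equiv.refl ι))]
      refine Finset.sum_congr rfl fun I' _ => ?_
      have r1 : (Equiv.arrowCongr τ.symm (Equiv.refl ι)) I' = I' ∘ τ := by
        funext l
        simp
      rw [r1, hS.altL (ev G z) hz τ I' J']
      have r2 : ∏ l', (M ∘ τ) l' ((I' ∘ τ) l') = ∏ l', M l' (I' l') :=
        Equiv.prod_comp τ (fun l' => M l' (I' l'))
      rw [r2]
      ring
  rw [p1, p2, add_zero]

/-- the conjugate form -/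
noncomputable def cf {p : ℕ} (S : Form ι p) : Form ι p := fun z I J => conj (S z J I)

theorem closedForm_cf (h1 : T_W1) {p : ℕ} {U : Set (ι → ℂ)} {S : Form ι p} (hU : IsOpen U)
    (hS : ClosedForm U S) : ClosedForm U (cf S) := by
  have dS : ∀ I J, ∀ z ∈ U, DifferentiableAt ℝ (fun w => S w I J) z := fun I J z hz =>
    ((hS.smooth I J).contDiffAt (hU.mem_nhds hz)).differentiableAt (by simp)
  refine ⟨?_, ?_, ?_, ?_, ?_⟩
  · intro I J
    exact Complex.conjCLE.contDiff.comp_contDiffOn (hS.smooth J I)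
  · intro z hz π I J
    unfold cf
    rw [hS.altR z hz, map_mul]
    simp
  · intro z hz π I J
    unfold cf
    rw [hS.altL z hz, map_mul]
    simp
  · intro z hz I J
    have e1 := hS.closedR z hz J I
    have e2 : ∀ j : Fin (p + 1), (-1 : ℂ) ^ (j : ℕ) *
        wd (I j) (fun w => cf S w (I ∘ j.succAbove) J) z =
        conj ((-1 : ℂ) ^ (j : ℕ) * wdb (I j) (fun w => S w J (I ∘ j.succAbove)) z) := by
      intro j
      have e3 := (h1 ι (I j) (fun w => S w J (I ∘ j.succAbove))
        (fun w => S w J (I ∘ j.succAbove)) z (dS _ _ z hz) (dS _ _ z hz)).2.2.2.2.1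
      rw [map_mul, ← e3, map_pow, map_neg, map_one]
      rfl
    rw [Finset.sum_congr rfl fun j _ => e2 j, ← map_sum, e1, map_zero]
  · intro z hz I J
    have e1 := hS.closedL z hz J I
    have e2 : ∀ j : Fin (p + 1), (-1 : ℂ) ^ (j : ℕ) *
        wdb (J j) (fun w => cf S w I (J ∘ j.succAbove)) z =
        conj ((-1 : ℂ) ^ (j : ℕ) * wd (J j) (fun w => S w (J ∘ j.succAbove) I) z) := by
      intro j
      have e3 := (h1 ι (J j) (fun w => S w (J ∘ j.succAbove) I)
        (fun w => S w (J ∘ j.succAbove) I) z (dS _ _ z hz) (dS _ _ z hz)).2.2.2.2.2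
      rw [map_mul, ← e3, map_pow, map_neg, map_one]
      rfl
    rw [Finset.sum_congr rfl fun j _ => e2 j, ← map_sum, e1, map_zero]

theorem pull_cf {p : ℕ} (G : ι → MvPolynomial κ ℂ) (S : Form ι p) (z : κ → ℂ)
    (I J : Fin p → κ) : pull G (cf S) z I J = conj (pull G S z J I) := by
  unfold pull cf
  rw [map_sum, Finset.sum_comm]
  refine Finset.sum_congr rfl fun I' _ => ?_
  rw [map_sum]
  refine Finset.sum_congr rfl fun J' _ => ?_
  rw [map_mul, map_mul, map_prod, map_prod]
  simp only [Complex.conj_conj]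
  ring

theorem pull_altL {p : ℕ} (G : ι → MvPolynomial κ ℂ) {U : Set (ι → ℂ)} {S : Form ι p}
    (hS : ClosedForm U S) (z : κ → ℂ) (hz : ev G z ∈ U) (π : Equiv.Perm (Fin p))
    (I J : Fin p → κ) :
    pull G S z (I ∘ π) J = ((Equiv.Perm.sign π : ℤ) : ℂ) * pull G S z I J := by
  unfold pull
  rw [← Equiv.sum_comp (Equiv.arrowCongr π.symm (Equiv.refl ι)), Finset.mul_sum]
  refine Finset.sum_congr rfl fun I' _ => ?_
  rw [Finset.mul_sum]
  refine Finset.sum_congr rfl fun J' _ => ?_
  have r1 : (Equiv.arrowCongr π.symm (Equiv.refl ι)) I' = I' ∘ π := by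
    funext l
    simp
  have r2 : ∏ l, jac G z ((I' ∘ π) l) ((I ∘ π) l) = ∏ l, jac G z (I' l) (I l) :=
    Equiv.prod_comp π (fun l => jac G z (I' l) (I l))
  rw [r1, hS.altL (ev G z) hz π I' J', r2]
  ring

theorem d1 (h1 : T_W1) (h2 : T_W2) (h3 : T_W3) : T_D1 := by
  intro ι κ _ _ _ _ p G U S hU hS
  have hS' := closedForm_cf h1 hU hS
  have hV : IsOpen (ev G ⁻¹' U) := hU.preimage (contDiff_ev h2 G).continuous
  have dP : ∀ I J, ∀ z ∈ ev G ⁻¹' U, DifferentiableAt ℝ (fun w => pull G S w I J) z :=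
    fun I J z hz => ((smooth_pull h2 G hS.smooth I J).contDiffAt
      (hV.mem_nhds hz)).differentiableAt (by simp)
  refine ⟨smooth_pull h2 G hS.smooth, fun z hz π I J => pull_altL G hS z hz π I J, ?_,
    fun z hz I J => pull_closedL h1 h2 h3 G hU hS z hz I J, ?_⟩
  · intro z hz π I J
    have e1 := pull_altL G hS' z hz π J I
    rw [pull_cf, pull_cf] at e1
    have e2 := congrArg (starRingEnd ℂ) e1
    rw [map_mul, Complex.conj_conj, Complex.conj_conj] at e2
    rw [e2]
    simp
  · intro z hz I J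
    have e1 := pull_closedL h1 h2 h3 G hU hS' z hz J I
    have e2 : ∀ j : Fin (p + 1), (-1 : ℂ) ^ (j : ℕ) *
        wdb (J j) (fun w => pull G S w I (J ∘ j.succAbove)) z =
        conj ((-1 : ℂ) ^ (j : ℕ) *
          wd (J j) (fun w => pull G (cf S) w (J ∘ j.succAbove) I) z) := by
      intro j
      have e3 := (h1 κ (J j) (fun w => pull G S w I (J ∘ j.succAbove))
        (fun w => pull G S w I (J ∘ j.succAbove)) z (dP _ _ z hz) (dP _ _ z hz)).2.2.2.2.1
      have e4 : (fun w => pull G (cf S) w (J ∘ j.succAbove) I) =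
          fun w => conj (pull G S w I (J ∘ j.succAbove)) := by
        funext w
        rw [pull_cf]
      rw [e4, map_mul, e3, map_pow, map_neg, map_one, Complex.conj_conj]
    rw [Finset.sum_congr rfl fun j _ => e2 j, ← map_sum, e1, map_zero]

end Pool.Agent.H11.EQ
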