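import Pool.Agent.H92.EQ.TF2

/-!
# MP_75a732_an, row D1, part 1: an alternating sum, and derivatives of sums and products
-/

set_option autoImplicit false

namespace Pool.Agent.H11.EQ

open scoped BigOperators ComplexConjugate ContDiff ComplexOrder
open MeasureTheory Pool.Agent.H92.EQ

theorem sign_mul_self {p : ℕ} (τ : Equiv.Perm (Fin p)) :
    ((Equiv.Perm.sign τ : ℤ) : ℂ) * ((Equiv.Perm.sign τ : ℤ) : ℂ) = 1 := by
  rw [← Int.cast_mul, ← Units.val_mul, Int.units_mul_self]
  simp

/-- the alternating sum over the omitted index is an average over the permutations -/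
theorem sum_perm_eq {p : ℕ} (F : Fin (p + 1) → (Fin p → Fin (p + 1)) → ℂ)
    (hF : ∀ j K (τ : Equiv.Perm (Fin p)),
      F j (K ∘ τ) = ((Equiv.Perm.sign τ : ℤ) : ℂ) * F j K) :
    ∑ σ : Equiv.Perm (Fin (p + 1)), ((Equiv.Perm.sign σ : ℤ) : ℂ) *
      F (σ 0) (fun l => σ l.succ) =
      (p.factorial : ℂ) * ∑ j : Fin (p + 1), (-1 : ℂ) ^ (j : ℕ) * F j j.succAbove := by
  rw [← Equiv.sum_comp Equiv.Perm.decomposeFin.symm, Fintype.sum_prod_type, Finset.mul_sum]
  refine Finset.sum_congr rfl fun j _ => ?_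
  have h : ∀ τ : Equiv.Perm (Fin p),
      ((Equiv.Perm.sign (Equiv.Perm.decomposeFin.symm (j, τ)) : ℤ) : ℂ) *
        F (Equiv.Perm.decomposeFin.symm (j, τ) 0)
          (fun l => Equiv.Perm.decomposeFin.symm (j, τ) l.succ) =
        (-1) ^ (j : ℕ) * F j j.succAbove := by
    intro τ
    rw [Equiv.Perm.decomposeFin_symm_apply_zero, Equiv.Perm.decomposeFin.symm_sign]
    simp only [Equiv.Perm.decomposeFin_symm_apply_succ]
    have e1 : (fun l : Fin p => Equiv.swap 0 j (τ l).succ) =
        (fun l : Fin p => Equiv.swap 0 j l.succ) ∘ τ := rfl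
    rw [e1, hF]
    have h2 := sign_mul_self τ
    rcases Fin.eq_zero_or_eq_succ j with hj | ⟨i, hi⟩
    · subst hj
      have e2 : (fun l : Fin p => Equiv.swap (0 : Fin (p + 1)) 0 l.succ) =
          (0 : Fin (p + 1)).succAbove := by
        funext l
        rw [Equiv.swap_self, Fin.succAbove_zero]
        rfl
      rw [e2, if_pos rfl]
      simp only [one_mul, Fin.val_zero, pow_zero]
      rw [← mul_assoc, h2, one_mul]
    · subst hi
      have e2 : (fun l : Fin p => Equiv.swap (0 : Fin (p + 1)) i.succ l.succ) =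
          i.succ.succAbove ∘ i.cycleRange := by
        funext l
        exact (Fin.succAbove_cycleRange i l).symm
      rw [e2, hF, Fin.sign_cycleRange, if_neg (Fin.succ_ne_zero i)]
      push_cast
      rw [Fin.val_succ, pow_succ]
      linear_combination (-1 : ℂ) ^ (i : ℕ) * (-1) * F i.succ i.succ.succAbove * h2
  rw [Finset.sum_congr rfl fun τ _ => h τ, Finset.sum_const, Finset.card_univ,
    Fintype.card_perm, Fintype.card_fin, nsmul_eq_mul]

/-- an alternating function and a symmetric array: the alternating sum over ordered pairs is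
zero -/
theorem sum_alt_symm {p : ℕ} {W : Type} (B : (Fin p → W) → ℂ)
    (hB : ∀ M (τ : Equiv.Perm (Fin p)), B (M ∘ τ) = ((Equiv.Perm.sign τ : ℤ) : ℂ) * B M)
    (V : Fin (p + 1) → W) (Hs : Fin (p + 1) → Fin (p + 1) → W)
    (hH : ∀ i j, Hs i j = Hs j i) :
    ∑ j : Fin (p + 1), (-1 : ℂ) ^ (j : ℕ) *
      ∑ l, B (Function.update (V ∘ j.succAbove) l (Hs j (j.succAbove l))) = 0 := by
  set F : Fin (p + 1) → (Fin p → Fin (p + 1)) → ℂ :=
    fun j K => ∑ l, B (Function.update (V ∘ K) l (Hs j (K l))) with hFdef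
  have hF : ∀ j K (τ : Equiv.Perm (Fin p)),
      F j (K ∘ τ) = ((Equiv.Perm.sign τ : ℤ) : ℂ) * F j K := by
    intro j K τ
    simp only [hFdef]
    rw [Finset.mul_sum, ← Equiv.sum_comp τ (fun l => ((Equiv.Perm.sign τ : ℤ) : ℂ) *
      B (Function.update (V ∘ K) l (Hs j (K l))))]
    refine Finset.sum_congr rfl fun l _ => ?_
    rw [← hB]
    congr 1
    exact (Function.update_comp_eq_of_injective (V ∘ K) τ.injective l _).symm
  have h1 := sum_perm_eq F hF
  have h2 : ∑ σ : Equiv.Perm (Fin (p + 1)), ((Equiv.Perm.sign σ : ℤ) : ℂ) *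
      F (σ 0) (fun l => σ l.succ) = 0 := by
    simp only [hFdef, Finset.mul_sum]
    rw [Finset.sum_comm]
    refine Finset.sum_eq_zero fun l _ => ?_
    set f : Equiv.Perm (Fin (p + 1)) → ℂ := fun σ => ((Equiv.Perm.sign σ : ℤ) : ℂ) *
      B (Function.update (V ∘ fun l : Fin p => σ l.succ) l (Hs (σ 0) (σ l.succ))) with hf
    have h3 : ∑ σ, f σ = - ∑ σ, f σ := by
      have h4 := Equiv.sum_comp (Equiv.mulRight (Equiv.swap (0 : Fin (p + 1)) l.succ)) f
      rw [← Finset.sum_neg_distrib]
      nth_rewrite 1 [← h4]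
      refine Finset.sum_congr rfl fun σ _ => ?_
      simp only [hf, Equiv.coe_mulRight, Equiv.Perm.sign_mul,
        Equiv.Perm.sign_swap (Fin.succ_ne_zero l).symm, Equiv.Perm.mul_apply,
        Equiv.swap_apply_left, Equiv.swap_apply_right]
      have e1 : Function.update (V ∘ fun l' : Fin p => σ (Equiv.swap 0 l.succ l'.succ)) l
          (Hs (σ l.succ) (σ 0)) = Function.update (V ∘ fun l' : Fin p => σ l'.succ) l
          (Hs (σ 0) (σ l.succ)) := by
        funext l'
        by_cases h5 : l' = l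
        · subst h5
          rw [Function.update_self, Function.update_self, hH]
        · rw [Function.update_of_ne h5, Function.update_of_ne h5]
          simp only [Function.comp]
          rw [Equiv.swap_apply_of_ne_of_ne (Fin.succ_ne_zero l')
            (fun h6 => h5 (Fin.succ_injective _ h6))]
      rw [e1]
      push_cast
      ring
    exact self_eq_neg.mp h3
  have h4 : (p.factorial : ℂ) ≠ 0 := Nat.cast_ne_zero.mpr (Nat.factorial_ne_zero p)
  rw [h2] at h1
  exact (mul_eq_zero.mp h1.symm).resolve_left h4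

section wirtinger

variable {κ : Type} [Fintype κ] [DecidableEq κ]

theorem wd_sum {α : Type} (s : Finset α) (a : κ) (f : α → (κ → ℂ) → ℂ) (z : κ → ℂ)
    (hf : ∀ i ∈ s, DifferentiableAt ℝ (f i) z) :
    wd a (fun w => ∑ i ∈ s, f i w) z = ∑ i ∈ s, wd a (f i) z := by
  unfold wd
  rw [fderiv_fun_sum hf, _root_.sum_apply, _root_.sum_apply,
    Finset.mul_sum, ← Finset.sum_sub_distrib, Finset.sum_div]

theorem wd_prod {α : Type} [DecidableEq α] (s : Finset α) (a : κ) (f : α → (κ → ℂ) → ℂ)
    (z : κ → ℂ) (hf : ∀ i ∈ s, DifferentiableAt ℝ (f i) z) :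
    wd a (fun w => ∏ i ∈ s, f i w) z = ∑ i ∈ s, (∏ j ∈ s.erase i, f j z) * wd a (f i) z := by
  unfold wd
  rw [fderiv_finsetProd hf, _root_.sum_apply, _root_.sum_apply,
    Finset.mul_sum, ← Finset.sum_sub_distrib, Finset.sum_div]
  refine Finset.sum_congr rfl fun i _ => ?_
  rw [_root_.smul_apply, _root_.smul_apply, smul_eq_mul, smul_eq_mul]
  ring

end wirtinger

end Pool.Agent.H11.EQ
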