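import Pool.Agent.H92.EQ.TF2

/-!
# MP_75a732_an, row D6: exterior product on projective space
-/

set_option autoImplicit false

namespace Pool.Agent.H11.EQ

open scoped BigOperators ComplexConjugate ContDiff ComplexOrder
open MeasureTheory Pool.Agent.H92.EQ

/-- the exterior product is killed by a vector killed by both factors -/
theorem kilL_wedge {ι : Type} [Fintype ι] [DecidableEq ι] {p : ℕ} {v : ι → ℂ}
    {S : (Fin p → ι) → (Fin p → ι) → ℂ} {H : Matrix ι ι ℂ} (hS : KilL v S) (hH : MKilL v H) :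
    KilL v (wedge S H) := by
  intro I J j
  have key : ∀ a' b' : Fin (p + 1), ∑ a, v a * ((-1 : ℂ) ^ ((a' : ℕ) + (b' : ℕ)) *
      S (Function.update I j a ∘ a'.succAbove) (J ∘ b'.succAbove) *
      H (Function.update I j a a') (J b')) = 0 := by
    intro a' b'
    by_cases h : j = a'
    · subst h
      have h1 : ∀ a, Function.update I j a ∘ j.succAbove = I ∘ j.succAbove := by
        intro a
        funext i
        simp only [Function.comp]
        rw [Function.update_of_ne (Fin.succAbove_ne j i)]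
      simp only [h1, Function.update_self]
      have h2 : ∀ a, v a * ((-1 : ℂ) ^ ((j : ℕ) + (b' : ℕ)) *
          S (I ∘ j.succAbove) (J ∘ b'.succAbove) * H a (J b')) =
          ((-1 : ℂ) ^ ((j : ℕ) + (b' : ℕ)) * S (I ∘ j.succAbove) (J ∘ b'.succAbove)) *
            (v a * H a (J b')) := fun a => by ring
      simp only [h2]
      rw [← Finset.mul_sum, hH (J b'), mul_zero]
    · obtain ⟨i, hi⟩ := Fin.exists_succAbove_eq h
      have h1 : ∀ a, Function.update I j a ∘ a'.succAbove =
          Function.update (I ∘ a'.succAbove) i a := by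
        intro a
        rw [← hi]
        exact Function.update_comp_eq_of_injective I a'.succAbove_right_injective i a
      have h3 : ∀ a, Function.update I j a a' = I a' := fun a =>
        Function.update_of_ne (Ne.symm h) _ _
      simp only [h1, h3]
      have h2 : ∀ a, v a * ((-1 : ℂ) ^ ((a' : ℕ) + (b' : ℕ)) *
          S (Function.update (I ∘ a'.succAbove) i a) (J ∘ b'.succAbove) * H (I a') (J b')) =
          ((-1 : ℂ) ^ ((a' : ℕ) + (b' : ℕ)) * H (I a') (J b')) *
            (v a * S (Function.update (I ∘ a'.succAbove) i a) (J ∘ b'.succAbove)) :=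
        fun a => by ring
      simp only [h2]
      rw [← Finset.mul_sum, hS (I ∘ a'.succAbove) (J ∘ b'.succAbove) i, mul_zero]
  have h4 : ∀ a, v a * wedge S H (Function.update I j a) J = ((p + 1 : ℂ) ^ 2)⁻¹ *
      ∑ a' : Fin (p + 1), ∑ b' : Fin (p + 1), v a * ((-1 : ℂ) ^ ((a' : ℕ) + (b' : ℕ)) *
      S (Function.update I j a ∘ a'.succAbove) (J ∘ b'.succAbove) *
      H (Function.update I j a a') (J b')) := by
    intro a
    unfold wedge
    rw [mul_left_comm, Finset.mul_sum]
    congr 1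
    refine Finset.sum_congr rfl fun a' _ => ?_
    rw [Finset.mul_sum]
  simp only [h4]
  rw [← Finset.mul_sum, Finset.sum_comm]
  have h5 : ∀ a' : Fin (p + 1), ∑ a, ∑ b' : Fin (p + 1), v a *
      ((-1 : ℂ) ^ ((a' : ℕ) + (b' : ℕ)) *
      S (Function.update I j a ∘ a'.succAbove) (J ∘ b'.succAbove) *
      H (Function.update I j a a') (J b')) = 0 := by
    intro a'
    rw [Finset.sum_comm]
    exact Finset.sum_eq_zero fun b' _ => key a' b'
  rw [Finset.sum_eq_zero fun a' _ => h5 a', mul_zero]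

/-- the same on the right -/
theorem kilR_wedge {ι : Type} [Fintype ι] [DecidableEq ι] {p : ℕ} {v : ι → ℂ}
    {S : (Fin p → ι) → (Fin p → ι) → ℂ} {H : Matrix ι ι ℂ} (hS : KilR v S) (hH : MKilR v H) :
    KilR v (wedge S H) := by
  intro I J j
  have key : ∀ a' b' : Fin (p + 1), ∑ a, conj (v a) * ((-1 : ℂ) ^ ((a' : ℕ) + (b' : ℕ)) *
      S (I ∘ a'.succAbove) (Function.update J j a ∘ b'.succAbove) *
      H (I a') (Function.update J j a b')) = 0 := by
    intro a' b'
    by_cases h : j = b'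
    · subst h
      have h1 : ∀ a, Function.update J j a ∘ j.succAbove = J ∘ j.succAbove := by
        intro a
        funext i
        simp only [Function.comp]
        rw [Function.update_of_ne (Fin.succAbove_ne j i)]
      simp only [h1, Function.update_self]
      have h2 : ∀ a, conj (v a) * ((-1 : ℂ) ^ ((a' : ℕ) + (j : ℕ)) *
          S (I ∘ a'.succAbove) (J ∘ j.succAbove) * H (I a') a) =
          ((-1 : ℂ) ^ ((a' : ℕ) + (j : ℕ)) * S (I ∘ a'.succAbove) (J ∘ j.succAbove)) *
            (conj (v a) * H (I a') a) := fun a => by ring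
      simp only [h2]
      rw [← Finset.mul_sum, hH (I a'), mul_zero]
    · obtain ⟨i, hi⟩ := Fin.exists_succAbove_eq h
      have h1 : ∀ a, Function.update J j a ∘ b'.succAbove =
          Function.update (J ∘ b'.succAbove) i a := by
        intro a
        rw [← hi]
        exact Function.update_comp_eq_of_injective J b'.succAbove_right_injective i a
      have h3 : ∀ a, Function.update J j a b' = J b' := fun a =>
        Function.update_of_ne (Ne.symm h) _ _
      simp only [h1, h3]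
      have h2 : ∀ a, conj (v a) * ((-1 : ℂ) ^ ((a' : ℕ) + (b' : ℕ)) *
          S (I ∘ a'.succAbove) (Function.update (J ∘ b'.succAbove) i a) * H (I a') (J b')) =
          ((-1 : ℂ) ^ ((a' : ℕ) + (b' : ℕ)) * H (I a') (J b')) *
            (conj (v a) * S (I ∘ a'.succAbove) (Function.update (J ∘ b'.succAbove) i a)) :=
        fun a => by ring
      simp only [h2]
      rw [← Finset.mul_sum, hS (I ∘ a'.succAbove) (J ∘ b'.succAbove) i, mul_zero]
  have h4 : ∀ a, conj (v a) * wedge S H I (Function.update J j a) = ((p + 1 : ℂ) ^ 2)⁻¹ *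
      ∑ a' : Fin (p + 1), ∑ b' : Fin (p + 1), conj (v a) * ((-1 : ℂ) ^ ((a' : ℕ) + (b' : ℕ)) *
      S (I ∘ a'.succAbove) (Function.update J j a ∘ b'.succAbove) *
      H (I a') (Function.update J j a b')) := by
    intro a
    unfold wedge
    rw [mul_left_comm, Finset.mul_sum]
    congr 1
    refine Finset.sum_congr rfl fun a' _ => ?_
    rw [Finset.mul_sum]
  simp only [h4]
  rw [← Finset.mul_sum, Finset.sum_comm]
  have h5 : ∀ a' : Fin (p + 1), ∑ a, ∑ b' : Fin (p + 1), conj (v a) *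
      ((-1 : ℂ) ^ ((a' : ℕ) + (b' : ℕ)) *
      S (I ∘ a'.succAbove) (Function.update J j a ∘ b'.succAbove) *
      H (I a') (Function.update J j a b')) = 0 := by
    intro a'
    rw [Finset.sum_comm]
    exact Finset.sum_eq_zero fun b' _ => key a' b'
  rw [Finset.sum_eq_zero fun a' _ => h5 a', mul_zero]

theorem d6 (hD3 : T_D3) (hD4 : T_D4) (hL2 : T_L2) : T_D6 := by
  intro N p S u hS hu
  have hLH : LH 1 u := ⟨hu.smooth, fun l z hl hz => by rw [hu.loghom l z hl hz, one_mul]⟩
  have hopen : IsOpen ({0}ᶜ : Set (Fin N → ℂ)) := isOpen_compl_singleton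
  have hcl : ClosedForm {0}ᶜ S :=
    ⟨hS.cp.smooth, hS.cp.altL, hS.cp.altR, hS.cp.closedL, hS.cp.closedR⟩
  have hsm : ContDiffOn ℝ ∞ (fun w : Fin N → ℂ => ((u w : ℝ) : ℂ)) {0}ᶜ :=
    Complex.ofRealCLM.contDiff.comp_contDiffOn hu.smooth
  have h1 := hD3 (Fin N) p {0}ᶜ S (fun w => ((u w : ℝ) : ℂ)) hopen hcl hsm
  refine ⟨⟨h1.smooth, h1.altL, h1.altR, ?_, h1.closedL, h1.closedR⟩, ?_, ?_, ?_⟩
  · intro z hz
    exact hD4 (Fin N) p (S z) (hessR u z) (hS.cp.psd z hz) (hu.psh z hz)
  · intro l z hl hz I J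
    have h2 := ((hL2 N 1 u hLH z hz).2.2.2.2 l hl).2
    have h3 := hS.homog l z hl hz
    have hl' : (‖l‖ : ℂ) ≠ 0 := by
      rw [Ne, Complex.ofReal_eq_zero, norm_eq_zero]
      exact hl
    change wedge (S (l • z)) (hessR u (l • z)) I J =
      ((‖l‖ ^ (2 * (p + 1)))⁻¹ : ℝ) * wedge (S z) (hessR u z) I J
    rw [h2]
    have h4 : ((‖l‖ : ℂ) ^ (2 * (p + 1)))⁻¹ = ((‖l‖ : ℂ) ^ (2 * p))⁻¹ * ((‖l‖ : ℂ) ^ 2)⁻¹ := by
      rw [← mul_inv, ← pow_add, show 2 * (p + 1) = 2 * p + 2 by ring]
    have h5 : ∑ a : Fin (p + 1), ∑ b : Fin (p + 1), (-1 : ℂ) ^ ((a : ℕ) + (b : ℕ)) *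
        S (l • z) (I ∘ a.succAbove) (J ∘ b.succAbove) *
          ((((‖l‖ ^ 2 : ℝ) : ℂ)⁻¹ • hessR u z) (I a) (J b)) =
        (((‖l‖ ^ (2 * (p + 1)))⁻¹ : ℝ) : ℂ) * ∑ a : Fin (p + 1), ∑ b : Fin (p + 1),
          (-1 : ℂ) ^ ((a : ℕ) + (b : ℕ)) * S z (I ∘ a.succAbove) (J ∘ b.succAbove) *
            hessR u z (I a) (J b) := by
      rw [Finset.mul_sum]
      refine Finset.sum_congr rfl fun a _ => ?_
      rw [Finset.mul_sum]
      refine Finset.sum_congr rfl fun b _ => ?_
      rw [h3 (I ∘ a.succAbove) (J ∘ b.succAbove), Matrix.smul_apply, smul_eq_mul]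
      push_cast
      rw [h4]
      ring
    unfold wedge
    rw [h5]
    ring
  · intro z hz
    exact kilL_wedge (hS.basicL z hz) (hL2 N 1 u hLH z hz).2.2.1
  · intro z hz
    exact kilR_wedge (hS.basicR z hz) (hL2 N 1 u hLH z hz).2.2.2.1

end Pool.Agent.H11.EQ
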